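import Pool.Agent.KS6_31.SH3

set_option autoImplicit false

/-
Leck's gap conjecture for the shadow spectrum, in the exterior algebra: the gaps persist when
families of k-sets are replaced by arbitrary subspaces of the k-th exterior power of K^n, over
every field K.
-/

namespace Pool.Agent.Results.MP_79d03b_co.Subspaces

open Module Submodule Finset

/-- `F t k`: least shadow size of a family of `t` distinct `k`-sets. -/
noncomputable def F (t k : ℕ) : ℕ :=
  sInf {m : ℕ | ∃ 𝒜 : Finset (Finset ℕ), 𝒜.card = t ∧ (∀ A ∈ 𝒜, A.card = k) ∧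
    (Finset.shadow 𝒜).card = m}

/-- The k-th exterior power of `K^n` inside the exterior algebra: functions on the subsets of `Fin n`
(coordinates with respect to the basis `e_Y`) that vanish outside the `k`-subsets. -/
def Ext (K : Type) [Field K] (n k : ℕ) : Submodule K (Finset (Fin n) → K) where
  carrier := {v | ∀ Y, Y.card ≠ k → v Y = 0}
  add_mem' := by
    intro v w hv hw Y hY
    simp [hv Y hY, hw Y hY]
  zero_mem' := by intro Y _; rfl
  smul_mem' := by
    intro r v hv Y hY
    simp [hv Y hY]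

/-- Contraction (interior product) with the `j`-th coordinate form. -/
def contr {K : Type} [Field K] {n : ℕ} (j : Fin n) (v : Finset (Fin n) → K) :
    Finset (Fin n) → K := fun Y =>
  if j ∈ Y then 0 else (-1) ^ (Y.filter (· < j)).card * v (insert j Y)

/-- The boundary (shadow) of a subspace: the span of all contractions of its members. -/
def bdry {K : Type} [Field K] {n : ℕ} (V : Submodule K (Finset (Fin n) → K)) :
    Submodule K (Finset (Fin n) → K) :=
  span K {w | ∃ j : Fin n, ∃ v ∈ V, w = contr j v}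

/-- `s` lies in the gap of `(k, r, a, t)`: `1 ≤ r ≤ k`, `a_r < ... < a_k`, `a_r ≥ r - 1`, and
`F(t-1,k) ≤ S < s ≤ F(t-1,k) + r - 2`, where `S = Σ_{i=r}^k C(a_i, i-1)`. -/
def InGap (k r s t : ℕ) (a : ℕ → ℕ) : Prop :=
  1 ≤ r ∧ r ≤ k ∧ r ≤ a r + 1 ∧ (∀ i : ℕ, r ≤ i → i < k → a i < a (i + 1)) ∧
    F (t - 1) k ≤ ∑ i ∈ Icc r k, (a i).choose (i - 1) ∧
    ∑ i ∈ Icc r k, (a i).choose (i - 1) < s ∧ s + 2 ≤ F (t - 1) k + r

/-- Some family of `t` distinct `k`-sets has a shadow with exactly `s` elements. -/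
def InSpectrum (t k s : ℕ) : Prop :=
  ∃ 𝒜 : Finset (Finset ℕ), 𝒜.card = t ∧ (∀ A ∈ 𝒜, A.card = k) ∧ 𝒜.shadow.card = s

/-- Some `t`-dimensional subspace of the `k`-th exterior power of `K^n` has an `s`-dimensional
boundary. -/
def InLinearSpectrum (K : Type) [Field K] (n t k s : ℕ) : Prop :=
  ∃ V : Submodule K (Finset (Fin n) → K), V ≤ Ext K n k ∧ finrank K V = t ∧
    finrank K (bdry V) = s

/-- (1) The posed statement (without `r ≥ 3`, `a_r > r`). (2) The same for subspaces, over every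
field. (3) Kruskal-Katona for subspaces. (4) A family of `k`-subsets of `Fin n` gives a subspace with
the same numbers, so (2), (3) contain the statements for families. -/
theorem result :
    (∀ (k r s t : ℕ) (a : ℕ → ℕ), InGap k r s t a → ¬ InSpectrum t k s) ∧
    (∀ (K : Type) [Field K] (n k r s t : ℕ) (a : ℕ → ℕ), InGap k r s t a →
      ¬ InLinearSpectrum K n t k s) ∧
    (∀ (K : Type) [Field K] (n t k s : ℕ), InLinearSpectrum K n t k s → F t k ≤ s) ∧
    (∀ (K : Type) [Field K] (n k : ℕ) (𝒟 : Finset (Finset (Fin n))), (∀ A ∈ 𝒟, A.card = k) →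
      InLinearSpectrum K n 𝒟.card k 𝒟.shadow.card) := by
  have cas : ∀ (k r : ℕ) (a : ℕ → ℕ), 1 ≤ r → r ≤ k → r ≤ a r + 1 →
      (∀ i : ℕ, r ≤ i → i < k → a i < a (i + 1)) →
      ∃ β : ℕ → ℕ, (∀ j, j + 1 < k + 1 - r → β j ≤ β (j + 1)) ∧
        Pool.Agent.TH393.Lk.SS (r - 1) (k + 1 - r) β = ∑ i ∈ Icc r k, (a i).choose (i - 1) := by
    intro k r a h1r hrk har ha
    have hge : ∀ j, j < k + 1 - r → r + j ≤ a (r + j) + 1 := by
      intro j
      induction j with
      | zero => intro _; simpa using har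
      | succ j ih =>
        intro hj
        have h1 := ih (by omega)
        have h2 := ha (r + j) (by omega) (by omega)
        have h3 : r + (j + 1) = r + j + 1 := by ring
        rw [h3]
        omega
    refine ⟨fun j => a (r + j) + 1 - (r + j), ?_, ?_⟩
    · intro j hj
      have h2 := ha (r + j) (by omega) (by omega)
      have h3 : r + (j + 1) = r + j + 1 := by ring
      simp only [h3]
      omega
    · have h1 : Finset.Icc r k = Finset.Ico r (k + 1) := by
        ext x; simp only [Finset.mem_Icc, Finset.mem_Ico]; omega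
      rw [h1, Finset.sum_Ico_eq_sum_range]
      unfold Pool.Agent.TH393.Lk.SS
      apply Finset.sum_congr rfl
      intro j hj
      have h2 := hge j (Finset.mem_range.1 hj)
      have h3 : r - 1 + j + (a (r + j) + 1 - (r + j)) = a (r + j) := by omega
      have h4 : r - 1 + j = r + j - 1 := by omega
      rw [h3, h4]
  have hgr : ∀ (K : Type) [Field K] (n k : ℕ), Ext K n k = Pool.Agent.KS6_31.SH.gr K n k := by
    intro K _ n k
    rfl
  have hbd : ∀ (K : Type) [Field K] (n : ℕ) (V : Submodule K (Finset (Fin n) → K)),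
      bdry V = Pool.Agent.KS6_31.SH.bdry V := by
    intro K _ n V
    rfl
  refine ⟨?_, ?_, ?_, ?_⟩
  · rintro k r s t a ⟨h1, h2, h3, h4, hF, hS, hs⟩
    rintro ⟨𝒜, hcard, hsz, hsh⟩
    obtain ⟨β, hβ, hsum⟩ := cas k r a h1 h2 h3 h4
    have hk : (r - 1) + (k + 1 - r) = k := by omega
    have hFm : F (t - 1) k = Pool.Agent.TH393.Lk.Fm k (t - 1) := rfl
    rw [hFm] at hF hs
    have := Pool.Agent.TH393.Lk.gap_fam (k + 1 - r) (r - 1) β hβ 𝒜
      (by rw [hk]; exact hsz) (by rw [hk, hsum, hcard]; exact hF) (by rw [hsum, hsh]; exact hS)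
    rw [hk, hcard, hsh] at this
    omega
  · rintro K _ n k r s t a ⟨h1, h2, h3, h4, hF, hS, hs⟩
    rintro ⟨V, hV, hcard, hsh⟩
    obtain ⟨β, hβ, hsum⟩ := cas k r a h1 h2 h3 h4
    have hk : (r - 1) + (k + 1 - r) = k := by omega
    have hFm : F (t - 1) k = Pool.Agent.TH393.Lk.Fm k (t - 1) := rfl
    rw [hFm] at hF hs
    rw [hgr] at hV
    rw [hbd] at hsh
    have := Pool.Agent.KS6_31.SH.gapf (k + 1 - r) β hβ (r - 1) V
      (by rw [hk]; exact hV) (by rw [hk, hsum, hcard]; exact hF) (by rw [hsum, hsh]; exact hS)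
    rw [hk, hcard, hsh] at this
    omega
  · rintro K _ n t k s ⟨V, hV, rfl, rfl⟩
    rw [hgr] at hV
    exact Pool.Agent.KS6_31.SH.kkf hV
  · intro K _ n k 𝒟 h𝒟
    refine ⟨Pool.Agent.KS6_31.SH.sp K 𝒟, ?_, ?_, ?_⟩
    · rw [hgr]
      exact Pool.Agent.KS6_31.SH.sp_le_gr h𝒟
    · exact Pool.Agent.KS6_31.SH.finrank_sp 𝒟
    · rw [hbd, Pool.Agent.KS6_31.SH.bdry_eq, Pool.Agent.KS6_31.SH.bd_sp]
      exact Pool.Agent.KS6_31.SH.finrank_sp _

end Pool.Agent.Results.MP_79d03b_co.Subspaces
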